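import Mathlib
import Pool.Agent.Helper46.Rel.Coeff
import Pool.Agent.Helper96.C3UB

/-!
# MP_d6acc2, mean square version of the coefficient bound
-/

set_option autoImplicit false

namespace Pool.Agent.Helper82.UM

open Complex Set Metric Pool.Agent.Helper60.Rel Pool.Agent.Helper46.Rel Polynomial MeasureTheory

open scoped Real

theorem hasSum_tc {F : ℂ → ℂ} (hF : DifferentiableOn ℂ F (ball 0 1)) {z : ℂ} (hz : ‖z‖ < 1) :
    HasSum (fun n : ℕ => tc F n * z ^ n) (F z) := by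
  have h := Complex.hasSum_taylorSeries_on_ball (f := F) (c := 0) (r := (1 : NNReal))
    (by simpa using hF) (z := z) (by simpa using hz)
  refine h.congr_fun ?_ |> fun h => h
  intro m
  simp only [smul_eq_mul, sub_zero, tc]
  ring

theorem summable_tc {F : ℂ → ℂ} (hF : DifferentiableOn ℂ F (ball 0 1)) {t : ℝ} (h0 : 0 ≤ t)
    (h1 : t < 1) : Summable fun n : ℕ => ‖tc F n‖ * t ^ n := by
  have hz : ‖(t : ℂ)‖ < 1 := by rwa [Complex.norm_real, Real.norm_of_nonneg h0]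
  have := (hasSum_tc hF hz).summable.norm
  refine this.congr fun n => ?_
  rw [norm_mul, norm_pow, Complex.norm_real, Real.norm_of_nonneg h0]

/-- Bessel's inequality on a circle. -/
theorem bessel {F : ℂ → ℂ} (hF : DifferentiableOn ℂ F (ball 0 1)) {s : ℝ} (hs : 0 < s)
    (T : Finset ℕ) :
    ∑ M ∈ T, ‖tc F M‖ ^ 2 * Real.exp (-s) ^ (2 * M) ≤
      (2 * π)⁻¹ * ∫ τ in (0 : ℝ)..(2 * π), ‖F (wp s τ)‖ ^ 2 := by
  have hlt : Real.exp (-s) < 1 := by
    rw [Real.exp_lt_one_iff]; linarith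
  have h := Pool.Agent.Helper64.C3.ub_parseval (tc F) id Function.injective_id (Real.exp (-s))
    (Real.exp_pos _).le (summable_tc hF (Real.exp_pos _).le hlt) F
    (fun z hz => hasSum_tc hF (by rw [mem_sphere_zero_iff_norm.1 hz]; exact hlt))
  have h2 := sum_le_hasSum T (fun k _ => by positivity) h
  simp only [id] at h2
  refine h2.trans (le_of_eq ?_)
  unfold Real.circleAverage
  rw [smul_eq_mul]
  congr 1
  apply intervalIntegral.integral_congr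
  intro τ _
  simp only [wp_eq]

section

variable {f : ℂ → ℂ} {m : ℕ}

/-- The weighted square integral. -/
noncomputable def Iw2 (f : ℂ → ℂ) (z : Fin m → ℂ) (n : ℕ) (s : ℝ) (S : Finset (Fin m)) : ℝ :=
  ∫ τ in (0 : ℝ)..(2 * π),
    ((∏ l ∈ S, max ‖wp s τ - z l‖ (1 / (n : ℝ))) * ‖deriv f (wp s τ)‖) ^ 2

theorem cont_int2 (hf : DifferentiableOn ℂ f (ball 0 1)) (z : Fin m → ℂ) (n : ℕ) {s : ℝ}
    (hs : 0 < s) (S : Finset (Fin m)) :
    Continuous fun τ =>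
      ((∏ l ∈ S, max ‖wp s τ - z l‖ (1 / (n : ℝ))) * ‖deriv f (wp s τ)‖) ^ 2 :=
  (cont_int hf z n hs S).pow 2

theorem Iw2_nonneg (f : ℂ → ℂ) (z : Fin m → ℂ) (n : ℕ) (s : ℝ) (S : Finset (Fin m)) :
    0 ≤ Iw2 f z n s S := by
  apply intervalIntegral.integral_nonneg (by positivity)
  intro τ _
  positivity

theorem Iw2_erase (hf : DifferentiableOn ℂ f (ball 0 1)) (z : Fin m → ℂ) {n : ℕ} (hn : 1 ≤ n)
    {s : ℝ} (hs : 0 < s) (S : Finset (Fin m)) {l : Fin m} (hl : l ∈ S) :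
    Iw2 f z n s (S.erase l) ≤ n ^ 2 * Iw2 f z n s S := by
  unfold Iw2
  rw [← intervalIntegral.integral_const_mul]
  have hn0 : (0 : ℝ) < n := by exact_mod_cast hn
  apply intervalIntegral.integral_mono_on (by positivity)
    ((cont_int2 hf z n hs _).intervalIntegrable _ _)
    ((continuous_const.mul (cont_int2 hf z n hs _)).intervalIntegrable _ _)
  intro τ _
  show ((∏ l ∈ S.erase l, max ‖wp s τ - z l‖ (1 / (n : ℝ))) * ‖deriv f (wp s τ)‖) ^ 2 ≤
    n ^ 2 * ((∏ l ∈ S, max ‖wp s τ - z l‖ (1 / (n : ℝ))) * ‖deriv f (wp s τ)‖) ^ 2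
  rw [← Finset.mul_prod_erase S _ hl, ← mul_pow]
  have h1 : 1 ≤ n * max ‖wp s τ - z l‖ (1 / (n : ℝ)) := by
    have : 1 / (n : ℝ) ≤ max ‖wp s τ - z l‖ (1 / (n : ℝ)) := le_max_right _ _
    calc (1 : ℝ) = n * (1 / n) := by field_simp
      _ ≤ _ := by gcongr
  have h2 : 0 ≤ (∏ a ∈ S.erase l, max ‖wp s τ - z a‖ (1 / (n : ℝ))) * ‖deriv f (wp s τ)‖ := by
    apply mul_nonneg _ (norm_nonneg _)
    exact Finset.prod_nonneg fun a _ => le_trans (norm_nonneg _) (le_max_left _ _)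
  apply pow_le_pow_left₀ h2
  calc (∏ a ∈ S.erase l, max ‖wp s τ - z a‖ (1 / (n : ℝ))) * ‖deriv f (wp s τ)‖
      = 1 * ((∏ a ∈ S.erase l, max ‖wp s τ - z a‖ (1 / (n : ℝ))) * ‖deriv f (wp s τ)‖) := by
        rw [one_mul]
    _ ≤ (n * max ‖wp s τ - z l‖ (1 / (n : ℝ))) *
        ((∏ a ∈ S.erase l, max ‖wp s τ - z a‖ (1 / (n : ℝ))) * ‖deriv f (wp s τ)‖) :=
        mul_le_mul_of_nonneg_right h1 h2
    _ = _ := by ring

/-- `Ac` of a polynomial of small degree is a Taylor coefficient of the product. -/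
theorem Ac_eq_tc {g : ℂ → ℂ} (hg : DifferentiableOn ℂ g (ball 0 1)) (Q : ℂ[X]) (M : ℕ)
    (hQ : Q.natDegree ≤ M) : Ac g Q M = tc (fun w => Q.eval w * g w) M := by
  have h1 := Ac_integral hg one_pos Q M hQ
  have hd : DifferentiableOn ℂ (fun w => Q.eval w * g w) (ball 0 1) :=
    Q.differentiable.differentiableOn.mul hg
  have h2 := tc_eq hd one_pos M
  rw [← h2] at h1
  have hpi : (2 * (π : ℂ)) ≠ 0 := by
    have := Real.pi_pos
    exact mul_ne_zero two_ne_zero (by exact_mod_cast this.ne')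
  exact mul_left_cancel₀ hpi h1

theorem B2_bound (hf : DifferentiableOn ℂ f (ball 0 1)) (z : Fin m → ℂ) (n : ℕ)
    {s : ℝ} (hs : 0 < s) (S : Finset (Fin m)) (T : Finset ℕ) {N1 : ℕ}
    (hT : ∀ M ∈ T, S.card ≤ M ∧ M ≤ N1) {K : ℝ} (hK : Real.exp (2 * s * N1) ≤ K) :
    ∑ M ∈ T, ‖Ac (deriv f) (∏ l ∈ S, (X - C (z l))) M‖ ^ 2 ≤ K * Iw2 f z n s S := by
  set Q : ℂ[X] := ∏ l ∈ S, (X - C (z l)) with hQ
  set F : ℂ → ℂ := fun w => Q.eval w * deriv f w with hFdef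
  have hdf : DifferentiableOn ℂ (deriv f) (ball 0 1) := hf.deriv isOpen_ball
  have hF : DifferentiableOn ℂ F (ball 0 1) := Q.differentiable.differentiableOn.mul hdf
  have hdeg : ∀ M ∈ T, Q.natDegree ≤ M := by
    intro M hM
    rw [hQ, natDegree_prod_of_monic _ _ fun l _ => monic_X_sub_C _]
    simpa using (hT M hM).1
  have hK0 : 0 ≤ K := (Real.exp_pos _).le.trans hK
  have h1 := bessel hF hs T
  have h2 : ∑ M ∈ T, ‖Ac (deriv f) Q M‖ ^ 2 ≤
      K * ∑ M ∈ T, ‖tc F M‖ ^ 2 * Real.exp (-s) ^ (2 * M) := by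
    rw [Finset.mul_sum]
    apply Finset.sum_le_sum
    intro M hM
    rw [Ac_eq_tc hdf Q M (hdeg M hM)]
    have e1 : 1 ≤ K * Real.exp (-s) ^ (2 * M) := by
      have hMN : (M : ℝ) ≤ N1 := by exact_mod_cast (hT M hM).2
      rw [← Real.exp_nat_mul]
      have e2 : Real.exp (2 * s * N1) * Real.exp (((2 * M : ℕ) : ℝ) * -s) ≥ 1 := by
        rw [← Real.exp_add, ge_iff_le, Real.one_le_exp_iff]
        push_cast
        nlinarith
      calc (1 : ℝ) ≤ Real.exp (2 * s * N1) * Real.exp (((2 * M : ℕ) : ℝ) * -s) := e2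
        _ ≤ K * Real.exp (((2 * M : ℕ) : ℝ) * -s) := by gcongr
    calc ‖tc F M‖ ^ 2 = ‖tc F M‖ ^ 2 * 1 := (mul_one _).symm
      _ ≤ ‖tc F M‖ ^ 2 * (K * Real.exp (-s) ^ (2 * M)) := by gcongr
      _ = K * (‖tc F M‖ ^ 2 * Real.exp (-s) ^ (2 * M)) := by ring
  have h3 : ∫ τ in (0 : ℝ)..(2 * π), ‖F (wp s τ)‖ ^ 2 ≤ Iw2 f z n s S := by
    unfold Iw2
    apply intervalIntegral.integral_mono_on (by positivity)
    · apply Continuous.intervalIntegrable
      have : Continuous fun τ => F (wp s τ) :=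
        hF.continuousOn.comp_continuous (continuous_wp s) fun τ => wp_mem hs τ
      exact this.norm.pow 2
    · exact (cont_int2 hf z n hs S).intervalIntegrable _ _
    · intro τ _
      apply pow_le_pow_left₀ (norm_nonneg _)
      rw [hFdef]
      simp only
      rw [norm_mul, hQ, eval_prod, norm_prod]
      simp only [eval_sub, eval_X, eval_C]
      apply mul_le_mul_of_nonneg_right _ (norm_nonneg _)
      exact Finset.prod_le_prod (fun l _ => norm_nonneg _) fun l _ => le_max_left _ _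
  have h4 : (0 : ℝ) ≤ ∫ τ in (0 : ℝ)..(2 * π), ‖F (wp s τ)‖ ^ 2 := by
    apply intervalIntegral.integral_nonneg (by positivity)
    intro τ _
    positivity
  have hpi : (2 * π)⁻¹ ≤ 1 := by
    apply inv_le_one_of_one_le₀
    have := Real.pi_gt_three; linarith
  calc ∑ M ∈ T, ‖Ac (deriv f) Q M‖ ^ 2
      ≤ K * ∑ M ∈ T, ‖tc F M‖ ^ 2 * Real.exp (-s) ^ (2 * M) := h2
    _ ≤ K * ((2 * π)⁻¹ * ∫ τ in (0 : ℝ)..(2 * π), ‖F (wp s τ)‖ ^ 2) := by gcongr
    _ ≤ K * (1 * ∫ τ in (0 : ℝ)..(2 * π), ‖F (wp s τ)‖ ^ 2) := by gcongr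
    _ ≤ K * Iw2 f z n s S := by rw [one_mul]; gcongr

/-- The constants. -/
def Dr (K : ℝ) : ℕ → ℝ
  | 0 => 2 * K
  | r + 1 => 2 * K + 2 * (r + 1) ^ 2 * Dr K r

theorem Dr_nonneg {K : ℝ} (hK : 0 ≤ K) (r : ℕ) : 0 ≤ Dr K r := by
  induction r with
  | zero => rw [Dr]; positivity
  | succ r ih => rw [Dr]; positivity

theorem step2 (f : ℂ → ℂ) (z : Fin m → ℂ) {n : ℕ}
    (S : Finset (Fin m)) (M : ℕ) (h1 : n ≤ M + 1) :
    n ^ 2 * ‖Ac f (∏ l ∈ S, (X - C (z l))) (M + 1)‖ ^ 2 ≤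
      2 * ‖Ac (deriv f) (∏ l ∈ S, (X - C (z l))) M‖ ^ 2 +
        2 * S.card * ∑ l ∈ S, ‖Ac f (∏ a ∈ S.erase l, (X - C (z a))) M‖ ^ 2 := by
  have h3 := Ac_rec f (∏ l ∈ S, (X - C (z l))) M
  have h4 : derivative (∏ l ∈ S, (X - C (z l))) =
      ∑ l ∈ S, ∏ a ∈ S.erase l, (X - C (z a)) := by
    rw [derivative_prod_finset]
    exact Finset.sum_congr rfl fun l _ => by simp
  rw [h4, Ac_sum] at h3
  have h5 : (n : ℝ) ≤ ‖((M : ℂ) + 1)‖ := by
    have : ((M : ℂ) + 1) = ((M + 1 : ℕ) : ℂ) := by push_cast; ring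
    rw [this, Complex.norm_natCast]
    exact_mod_cast h1
  have h6 : n * ‖Ac f (∏ l ∈ S, (X - C (z l))) (M + 1)‖ ≤
      ‖Ac (deriv f) (∏ l ∈ S, (X - C (z l))) M‖ +
        ∑ l ∈ S, ‖Ac f (∏ a ∈ S.erase l, (X - C (z a))) M‖ := by
    calc n * ‖Ac f (∏ l ∈ S, (X - C (z l))) (M + 1)‖
        ≤ ‖((M : ℂ) + 1)‖ * ‖Ac f (∏ l ∈ S, (X - C (z l))) (M + 1)‖ := by gcongr
      _ = ‖((M : ℂ) + 1) * Ac f (∏ l ∈ S, (X - C (z l))) (M + 1)‖ := (norm_mul _ _).symm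
      _ ≤ _ := by
        rw [h3]
        exact (norm_add_le _ _).trans (add_le_add le_rfl (norm_sum_le _ _))
  have h7 : (∑ l ∈ S, ‖Ac f (∏ a ∈ S.erase l, (X - C (z a))) M‖) ^ 2 ≤
      S.card * ∑ l ∈ S, ‖Ac f (∏ a ∈ S.erase l, (X - C (z a))) M‖ ^ 2 :=
    sq_sum_le_card_mul_sum_sq
  have h8 : (0 : ℝ) ≤ n * ‖Ac f (∏ l ∈ S, (X - C (z l))) (M + 1)‖ := by positivity
  have h9 := pow_le_pow_left₀ h8 h6 2
  set x := ‖Ac (deriv f) (∏ l ∈ S, (X - C (z l))) M‖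
  set y := ∑ l ∈ S, ‖Ac f (∏ a ∈ S.erase l, (X - C (z a))) M‖
  rw [mul_pow] at h9
  nlinarith [sq_nonneg (x - y)]

theorem A2_bound (hf : DifferentiableOn ℂ f (ball 0 1)) (z : Fin m → ℂ) {n R : ℕ}
    (hn : 1 ≤ n) (hR : n ≤ R) {s : ℝ} (hs : 0 < s) {N1 : ℕ} {K : ℝ}
    (hK : Real.exp (2 * s * N1) ≤ K) (r : ℕ) :
    ∀ (S : Finset (Fin m)), S.card = r → R + r ≤ N1 →
      ∑ N ∈ Finset.Ico (n + r) (R + r), ‖Ac f (∏ l ∈ S, (X - C (z l))) N‖ ^ 2 ≤
        Dr K r / n ^ 2 * Iw2 f z n s S := by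
  have hn0 : (0 : ℝ) < n := by exact_mod_cast hn
  have hK0 : 0 ≤ K := (Real.exp_pos _).le.trans hK
  obtain ⟨n', rfl⟩ : ∃ n', n = n' + 1 := ⟨n - 1, by omega⟩
  obtain ⟨R', rfl⟩ : ∃ R', R = R' + 1 := ⟨R - 1, by omega⟩
  -- the general step
  have step : ∀ (S : Finset (Fin m)) (r : ℕ), S.card = r → R' + 1 + r ≤ N1 →
      ((n' + 1 : ℕ) : ℝ) ^ 2 * ∑ N ∈ Finset.Ico (n' + 1 + r) (R' + 1 + r),
        ‖Ac f (∏ l ∈ S, (X - C (z l))) N‖ ^ 2 ≤
      2 * (K * Iw2 f z (n' + 1) s S) +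
        2 * r * ∑ l ∈ S, ∑ M ∈ Finset.Ico (n' + r) (R' + r),
          ‖Ac f (∏ a ∈ S.erase l, (X - C (z a))) M‖ ^ 2 := by
    intro S r hS hle
    have e1 : ∑ N ∈ Finset.Ico (n' + 1 + r) (R' + 1 + r),
        ‖Ac f (∏ l ∈ S, (X - C (z l))) N‖ ^ 2 =
        ∑ M ∈ Finset.Ico (n' + r) (R' + r), ‖Ac f (∏ l ∈ S, (X - C (z l))) (M + 1)‖ ^ 2 := by
      rw [show n' + 1 + r = n' + r + 1 by ring, show R' + 1 + r = R' + r + 1 by ring]
      exact (Finset.sum_Ico_add' (fun N => ‖Ac f (∏ l ∈ S, (X - C (z l))) N‖ ^ 2) _ _ 1).symm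
    rw [e1, Finset.mul_sum]
    have e2 : ∀ M ∈ Finset.Ico (n' + r) (R' + r),
        ((n' + 1 : ℕ) : ℝ) ^ 2 * ‖Ac f (∏ l ∈ S, (X - C (z l))) (M + 1)‖ ^ 2 ≤
        2 * ‖Ac (deriv f) (∏ l ∈ S, (X - C (z l))) M‖ ^ 2 +
          2 * r * ∑ l ∈ S, ‖Ac f (∏ a ∈ S.erase l, (X - C (z a))) M‖ ^ 2 := by
      intro M hM
      have := step2 f z (n := n' + 1) S M (by have := Finset.mem_Ico.1 hM; omega)
      rwa [hS] at this
    refine (Finset.sum_le_sum e2).trans ?_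
    rw [Finset.sum_add_distrib, ← Finset.mul_sum, ← Finset.mul_sum, Finset.sum_comm]
    have e3 := B2_bound hf z (n' + 1) hs S (Finset.Ico (n' + r) (R' + r)) (N1 := N1)
      (fun M hM => by have := Finset.mem_Ico.1 hM; omega) hK
    linarith
  induction r with
  | zero =>
    intro S hS h1
    have h3 := step S 0 hS h1
    simp only [Nat.cast_zero, mul_zero, zero_mul, add_zero] at h3
    rw [Dr, div_mul_eq_mul_div, le_div_iff₀ (by positivity)]
    simp only [add_zero]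
    linarith
  | succ r ih =>
    intro S hS h1
    have h3 := step S (r + 1) hS h1
    have h4 : ∑ l ∈ S, ∑ M ∈ Finset.Ico (n' + (r + 1)) (R' + (r + 1)),
        ‖Ac f (∏ a ∈ S.erase l, (X - C (z a))) M‖ ^ 2 ≤
        (r + 1) * (Dr K r * Iw2 f z (n' + 1) s S) := by
      have h5 : ∀ l ∈ S, ∑ M ∈ Finset.Ico (n' + (r + 1)) (R' + (r + 1)),
          ‖Ac f (∏ a ∈ S.erase l, (X - C (z a))) M‖ ^ 2 ≤ Dr K r * Iw2 f z (n' + 1) s S := by
        intro l hl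
        have h6 := ih (S.erase l) (by rw [Finset.card_erase_of_mem hl]; omega) (by omega)
        rw [show n' + (r + 1) = n' + 1 + r by ring, show R' + (r + 1) = R' + 1 + r by ring]
        refine h6.trans ?_
        have h7 := Iw2_erase hf z hn hs S hl
        have h8 := Dr_nonneg hK0 r
        calc Dr K r / ((n' + 1 : ℕ) : ℝ) ^ 2 * Iw2 f z (n' + 1) s (S.erase l)
            ≤ Dr K r / ((n' + 1 : ℕ) : ℝ) ^ 2 *
              (((n' + 1 : ℕ) : ℝ) ^ 2 * Iw2 f z (n' + 1) s S) := by gcongr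
          _ = _ := by field_simp
      refine (Finset.sum_le_sum h5).trans (le_of_eq ?_)
      rw [Finset.sum_const, hS, nsmul_eq_mul]
      push_cast
      ring
    have h9 : (2 * ((r + 1 : ℕ) : ℝ)) * ∑ l ∈ S, ∑ M ∈ Finset.Ico (n' + (r + 1)) (R' + (r + 1)),
        ‖Ac f (∏ a ∈ S.erase l, (X - C (z a))) M‖ ^ 2 ≤
        (2 * ((r + 1 : ℕ) : ℝ)) * ((r + 1) * (Dr K r * Iw2 f z (n' + 1) s S)) := by gcongr
    rw [Dr, div_mul_eq_mul_div, le_div_iff₀ (by positivity)]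
    push_cast at h3 h9 ⊢
    linarith

end

theorem coeff_bound2 {f : ℂ → ℂ} (hf : DifferentiableOn ℂ f (ball 0 1)) (m : ℕ) :
    ∃ C : ℕ → ℝ, (∀ L, 0 ≤ C L) ∧ ∀ n : ℕ, 1 ≤ n → ∀ z : Fin m → ℂ,
      (∀ l, ‖z l‖ = Real.exp (-(1 / (n : ℝ)))) →
      ∃ c : ℕ → ℂ, c 0 = 1 ∧ (1 / 4 : ℝ) ^ m ≤ ‖c m‖ ∧
        ∀ L : ℕ, 1 ≤ L → ∀ s : ℝ, 1 / (2 * (n : ℝ)) ≤ s → s ≤ 1 / (n : ℝ) →
          ∑ N ∈ Finset.Icc n (L * n),
            ‖∑ i ∈ Finset.range (m + 1), c i * tc f (N + i)‖ ^ 2 ≤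
            C L / n ^ 2 * ∫ τ in (0 : ℝ)..(2 * π),
              ((∏ l, max ‖Complex.exp (-(s : ℂ) + τ * I) - z l‖ (1 / (n : ℝ))) *
                ‖deriv f (Complex.exp (-(s : ℂ) + τ * I))‖) ^ 2 := by
  refine ⟨fun L => Dr (Real.exp (2 * (L + 1 + m))) m, fun L => Dr_nonneg (Real.exp_pos _).le _,
    fun n hn z hz => ?_⟩
  have hn0 : (0 : ℝ) < n := by exact_mod_cast hn
  have hn1 : (1 : ℝ) ≤ n := by exact_mod_cast hn
  set P : ℂ[X] := ∏ l, (X - C (z l)) with hP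
  have hPmonic : P.Monic := monic_prod_of_monic _ _ fun l _ => monic_X_sub_C _
  have hdeg : P.natDegree = m := by
    rw [hP, natDegree_prod_of_monic _ _ fun l _ => monic_X_sub_C _]
    simp
  refine ⟨fun i => P.coeff (m - i), ?_, ?_, ?_⟩
  · simp only [Nat.sub_zero]
    rw [← hdeg]
    exact hPmonic.coeff_natDegree
  · simp only [Nat.sub_self]
    rw [coeff_zero_eq_eval_zero, hP, eval_prod, norm_prod]
    simp only [eval_sub, eval_X, eval_C, zero_sub, norm_neg, hz]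
    rw [Finset.prod_const, Finset.card_univ, Fintype.card_fin]
    have h1 : (1 / 4 : ℝ) ≤ Real.exp (-(1 / (n : ℝ))) := by
      have h2 : Real.exp (-1) ≤ Real.exp (-(1 / (n : ℝ))) := by
        apply Real.exp_le_exp.2
        have : 1 / (n : ℝ) ≤ 1 := by rw [div_le_one hn0]; exact hn1
        linarith
      have h3 : (1 / 4 : ℝ) ≤ Real.exp (-1) := by
        rw [Real.exp_neg]
        have h4 : Real.exp 1 ≤ 4 := by
          have := Real.exp_one_lt_d9; linarith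
        rw [one_div]
        exact inv_anti₀ (Real.exp_pos _) h4
      linarith
    gcongr
  · intro L hL s hs1 hs2
    have hs : 0 < s := lt_of_lt_of_le (by positivity) hs1
    have hK : Real.exp (2 * s * ((L * n + 1 + m : ℕ) : ℝ)) ≤ Real.exp (2 * (L + 1 + m)) := by
      apply Real.exp_le_exp.2
      have hs1' : s ≤ 1 := hs2.trans (by rw [div_le_one hn0]; exact hn1)
      have h1 : s * n ≤ 1 := by
        rw [← le_div_iff₀ hn0]; exact hs2
      have hL0 : (0 : ℝ) ≤ L := Nat.cast_nonneg L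
      have hm0 : (0 : ℝ) ≤ m := Nat.cast_nonneg m
      push_cast
      nlinarith [mul_le_mul_of_nonneg_left h1 hL0, mul_le_mul_of_nonneg_left hs1' hm0]
    have h := A2_bound hf z hn (R := L * n + 1) (by nlinarith) hs (N1 := L * n + 1 + m) hK m
      Finset.univ (by simp) le_rfl
    rw [← hP] at h
    have e : ∀ N, ∑ i ∈ Finset.range (m + 1), P.coeff (m - i) * tc f (N + i) =
        Ac f P (N + m) := by
      intro N
      unfold Ac
      have h1 : ∑ i ∈ Finset.range (N + m + 1), P.coeff i * tc f (N + m - i) =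
          ∑ i ∈ Finset.range (m + 1), P.coeff i * tc f (N + m - i) := by
        symm
        apply Finset.sum_subset
        · intro i hi
          rw [Finset.mem_range] at hi ⊢
          omega
        · intro i _ hi
          rw [Finset.mem_range] at hi
          rw [coeff_eq_zero_of_natDegree_lt (by rw [hdeg]; omega), zero_mul]
      rw [h1, ← Finset.sum_range_reflect]
      refine Finset.sum_congr rfl fun i hi => ?_
      have hi' := Finset.mem_range.1 hi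
      rw [show m + 1 - 1 - i = m - i by omega, show m - (m - i) = i by omega,
        show N + (m - i) = N + m - i by omega]
    have e2 : ∑ N ∈ Finset.Icc n (L * n),
        ‖∑ i ∈ Finset.range (m + 1), P.coeff (m - i) * tc f (N + i)‖ ^ 2 =
        ∑ N ∈ Finset.Ico (n + m) (L * n + 1 + m), ‖Ac f P N‖ ^ 2 := by
      rw [← Finset.sum_Ico_add' (fun N => ‖Ac f P N‖ ^ 2) n (L * n + 1) m]
      refine Finset.sum_congr ?_ fun N _ => by rw [e N]
      ext N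
      simp only [Finset.mem_Icc, Finset.mem_Ico]
      omega
    rw [e2]
    exact h

end Pool.Agent.Helper82.UM
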