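import Mathlib
import Pool.Agent.Helper60.Rel.Final

/-!
# The core of the mean square argument
-/

set_option autoImplicit false

namespace Pool.Agent.Helper82.UM

open Finset Pool.Agent.Helper60.Rel

/-- Selection of a good tuple, square version. -/
theorem selection2 {n m : ℕ} (hn : 1 ≤ n) (hm : 1 ≤ m) {p : Fin n → ℂ} (hp : ∀ i, ‖p i‖ = 1)
    {u : Fin n → ℝ} {B : ℝ} {N : ℕ} (hu : ∀ i, 0 ≤ u i + B) (hu2 : ∀ i, u i + B ≤ N)
    {w : Fin n → ℝ} (hw : ∀ i, 0 ≤ w i) {E : ℝ} (hE : 0 < E)
    (hS : ∀ J : Fin m → Fin n, E ≤ ∑ i, w i * ∏ a, kap p i (J a) ^ 2) :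
    ∃ (J : Fin (m + 1) → Fin n) (F : Fin (m + 1) → Finset (Fin n)),
      (∀ l, E ≤ K1 n m N * ∑ i ∈ F l, w i * ∏ a ∈ univ.erase l, kap p i (J a) ^ 2) ∧
      (∀ l, ∀ i ∈ F l, ⌊u i + B⌋₊ = ⌊u (J l) + B⌋₊) ∧
      (∀ l, ∀ i ∈ F l, ∀ a, a ≠ l → kap p i (J a) ≤ 2 * kap p (J l) (J a)) := by
  classical
  have : Nonempty (Fin n) := ⟨⟨0, by omega⟩⟩
  obtain ⟨J, hJ⟩ := Pool.Agent.Helper46.Rel.tuple_lemma (fun i j => kap p i j ^ 2)
    (fun i j => by have := kap_pos hn p i j; positivity)
    (fun i j => by simp only [kap_symm p i j]) w hw E hE hS (cls p u B N)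
  refine ⟨J, fun l => univ.filter (fun i => cls p u B N (Function.update J l i) = cls p u B N J),
    ?_, ?_, ?_⟩
  · intro l
    have h1 := hJ l
    have hcard : (Fintype.card ((Fin (m + 1) → Fin (N + 1)) ×
        (Fin (m + 1) → Fin (m + 1) → Fin (Nat.log 2 (2 * n) + 1)) ×
        (Fin (m + 1) → Fin 100 × Fin 100)) : ℝ)
        = (N + 1 : ℝ) ^ (m + 1) * ((Nat.log 2 (2 * n) + 1 : ℝ) ^ (m + 1)) ^ (m + 1)
          * 10000 ^ (m + 1) := by
      rw [Fintype.card_prod, Fintype.card_prod, Fintype.card_pi, Fintype.card_pi,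
        Fintype.card_pi]
      simp only [Fintype.card_fin, Fintype.card_prod, Finset.prod_const, Finset.card_univ,
        Fintype.card_pi]
      push_cast
      norm_num
      ring
    rw [hcard] at h1
    exact h1
  · intro l i hi
    exact (cls_spec hn (by omega) hp hu hu2 (mem_filter.1 hi).2).1
  · intro l i hi
    exact (cls_spec hn (by omega) hp hu hu2 (mem_filter.1 hi).2).2.1

/-- The elementary inequality. -/
theorem elem {M : ℕ} (hM : 1 ≤ M) {x : Fin M → ℝ} {D : Fin M → Fin M → ℝ} {b e L C : ℝ}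
    (hsymm : ∀ l a, D l a = D a l) (hD : ∀ l a, -b ≤ D l a) (hdiag : ∀ l, D l l = L)
    (hb : 0 ≤ b)
    (hx : ∀ l, e + ∑ a ∈ univ.erase l, D l a ≤ x l)
    (hgol : ∑ l, ∑ a, min (x l) (x a) ≤ 2 * ∑ l, ∑ a, D l a + C * M ^ 2) :
    M * e ≤ 2 * L + (C + (M - 1) * b) * M := by
  set T : Fin M → ℝ := fun l => ∑ a ∈ univ.erase l, D l a with hT
  set T' : Fin M → ℝ := fun l => ∑ a ∈ univ.erase l, (D l a + b) with hT'
  have hcard : ∀ l : Fin M, ((univ.erase l).card : ℝ) = M - 1 := by
    intro l
    rw [card_erase_of_mem (mem_univ l), card_univ, Fintype.card_fin]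
    push_cast [hM]
    ring
  have hTT : ∀ l, T' l = T l + (M - 1) * b := by
    intro l
    simp only [hT, hT']
    rw [sum_add_distrib, sum_const, nsmul_eq_mul, hcard]
  have hTge : ∀ l a, a ≠ l → D l a + b ≤ T' l := by
    intro l a ha
    exact single_le_sum (f := fun a => D l a + b) (fun c _ => by linarith [hD l c])
      (mem_erase.2 ⟨ha, mem_univ a⟩)
  have hmin : ∀ l, M * (e - (M - 1) * b) + 2 * T' l ≤ ∑ a, min (x l) (x a) := by
    intro l
    rw [← add_sum_erase univ (fun a => min (x l) (x a)) (mem_univ l)]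
    have h1 : e - (M - 1) * b + T' l ≤ min (x l) (x l) := by
      rw [min_self, hTT l]
      linarith [hx l]
    have h2 : ∑ a ∈ univ.erase l, (e - (M - 1) * b + (D l a + b)) ≤
        ∑ a ∈ univ.erase l, min (x l) (x a) := by
      apply sum_le_sum
      intro a ha
      have hal := (mem_erase.1 ha).1
      apply le_min
      · have := hTge l a hal
        rw [hTT l] at this
        have h3 := hx l
        simp only [hT] at this
        linarith
      · have := hTge a l hal.symm
        rw [hTT a] at this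
        have h3 := hx a
        simp only [hT] at this
        rw [hsymm l a]
        linarith
    have h4 : ∑ a ∈ univ.erase l, (e - (M - 1) * b + (D l a + b)) =
        (M - 1) * (e - (M - 1) * b) + T' l := by
      rw [sum_add_distrib, sum_const, nsmul_eq_mul, hcard]
    have h5 := add_le_add h1 h2
    rw [h4] at h5
    refine le_trans (le_of_eq ?_) h5
    ring
  have hsum := sum_le_sum (fun l (_ : l ∈ univ) => hmin l)
  have e1 : ∑ l : Fin M, (M * (e - (M - 1) * b) + 2 * T' l) =
      M * (M * (e - (M - 1) * b)) + 2 * ∑ l, T' l := by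
    rw [sum_add_distrib, sum_const, card_univ, Fintype.card_fin, nsmul_eq_mul, mul_sum]
  have e2 : ∑ l, ∑ a, D l a = M * L + ∑ l, T l := by
    have : ∀ l, ∑ a, D l a = L + T l := by
      intro l
      rw [← add_sum_erase univ (fun a => D l a) (mem_univ l), hdiag l]
    rw [sum_congr rfl (fun l _ => this l), sum_add_distrib, sum_const, card_univ,
      Fintype.card_fin, nsmul_eq_mul]
  have e3 : ∑ l, T' l = ∑ l, T l + M * ((M - 1) * b) := by
    rw [sum_congr rfl (fun l _ => hTT l), sum_add_distrib, sum_const, card_univ,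
      Fintype.card_fin, nsmul_eq_mul]
  rw [e1] at hsum
  rw [e2] at hgol
  have hM1 : (1 : ℝ) ≤ M := by exact_mod_cast hM
  have h6 : 0 ≤ (M : ℝ) * ((M - 1) * b) := mul_nonneg (by linarith) (mul_nonneg (by linarith) hb)
  have h7 : M * (M * (e - (M - 1) * b)) ≤ M * (2 * L) + C * M ^ 2 := by linarith
  have h8 : (M : ℝ) * (M * e) ≤ M * (2 * L + (C + (M - 1) * b) * M) := by nlinarith
  exact le_of_mul_le_mul_left h8 (by linarith)

theorem core2 {n m : ℕ} (hn : 1 ≤ n) (hm : 1 ≤ m) {p : Fin n → ℂ} (hp : ∀ i, ‖p i‖ = 1)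
    {u v : Fin n → ℝ} (hv : ∀ i, 0 ≤ v i) {B : ℝ} {N : ℕ}
    (hu : ∀ i, 0 ≤ u i + B) (hu2 : ∀ i, u i + B ≤ N) {E : ℝ} (hE : 0 < E)
    (hS : ∀ J : Fin m → Fin n,
      E ≤ ∑ i, (Real.exp (2 * u i) * v i) * ∏ a, kap p i (J a) ^ 2)
    {Cv : ℝ} (hCv : 0 < Cv)
    (harea : ∀ (A : Finset (Fin n)) (k : ℝ), (∀ i ∈ A, u i ∈ Set.Icc k (k + 1)) →
      ∑ i ∈ A, v i ≤ Cv)
    {C : ℝ}
    (hgol : ∀ J : Fin (m + 1) → Fin n, ∑ l, ∑ a, min (u (J l)) (u (J a)) ≤
      2 * ∑ l, ∑ a, (-Real.log (kap p (J l) (J a))) + C * ((m + 1 : ℕ) : ℝ) ^ 2) :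
    Real.log E ≤ 4 / (m + 1) * Real.log n + Real.log (K1 n m N)
      + (2 + m * Real.log 4 + Real.log Cv + 2 * C + 2 * m * Real.log 2) := by
  classical
  have h0 : (0 : ℝ) < n := by positivity
  obtain ⟨J, F, h1, h2, h3⟩ := selection2 hn hm hp hu hu2
    (w := fun i => Real.exp (2 * u i) * v i)
    (fun i => mul_nonneg (Real.exp_pos _).le (hv i)) hE hS
  have hK := K1_pos n m N
  have hlog : ∀ l, Real.log E ≤ Real.log (K1 n m N) + 2 * (u (J l) + 1) + m * Real.log 4
      + 2 * ∑ a ∈ univ.erase l, Real.log (kap p (J l) (J a)) + Real.log Cv := by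
    intro l
    set Q : ℝ := ∏ a ∈ univ.erase l, kap p (J l) (J a) with hQ
    have hQ0 : 0 < Q := prod_pos fun a _ => kap_pos hn p _ _
    have hcard : (univ.erase l).card = m := by
      rw [card_erase_of_mem (mem_univ l), card_univ, Fintype.card_fin]; omega
    have hterm : ∀ i ∈ F l, (Real.exp (2 * u i) * v i) *
        ∏ a ∈ univ.erase l, kap p i (J a) ^ 2 ≤
        (Real.exp (2 * (u (J l) + 1)) * (4 ^ m * Q ^ 2)) * v i := by
      intro i hi
      have hfl := h2 l i hi
      have a1 : u i ≤ u (J l) + 1 := by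
        have b1 := Nat.lt_floor_add_one (u i + B)
        have b2 := Nat.floor_le (hu (J l))
        rw [hfl] at b1
        linarith
      have a2 : ∏ a ∈ univ.erase l, kap p i (J a) ^ 2 ≤ 4 ^ m * Q ^ 2 := by
        calc ∏ a ∈ univ.erase l, kap p i (J a) ^ 2
            ≤ ∏ a ∈ univ.erase l, (2 * kap p (J l) (J a)) ^ 2 := by
              apply prod_le_prod
              · intro a _
                positivity
              · intro a ha
                exact pow_le_pow_left₀ (kap_pos hn p _ _).le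
                  (h3 l i hi a (mem_erase.1 ha).1) 2
          _ = 4 ^ m * Q ^ 2 := by
              simp only [mul_pow]
              rw [prod_mul_distrib, prod_const, hcard, hQ, ← prod_pow]
              norm_num
      calc (Real.exp (2 * u i) * v i) * ∏ a ∈ univ.erase l, kap p i (J a) ^ 2
          ≤ (Real.exp (2 * (u (J l) + 1)) * v i) * (4 ^ m * Q ^ 2) := by
            apply mul_le_mul _ a2 (prod_nonneg fun a _ => by positivity)
              (mul_nonneg (Real.exp_pos _).le (hv i))
            apply mul_le_mul_of_nonneg_right _ (hv i)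
            apply Real.exp_le_exp.2
            linarith
        _ = _ := by ring
    have hsum : ∑ i ∈ F l, v i ≤ Cv := by
      apply harea (F l) ((⌊u (J l) + B⌋₊ : ℝ) - B)
      intro i hi
      have hfl := h2 l i hi
      have b1 := Nat.lt_floor_add_one (u i + B)
      have b2 := Nat.floor_le (hu i)
      rw [hfl] at b1 b2
      constructor <;> linarith
    have hE2 : E ≤ K1 n m N * ((Real.exp (2 * (u (J l) + 1)) * (4 ^ m * Q ^ 2)) * Cv) := by
      refine (h1 l).trans ?_
      apply mul_le_mul_of_nonneg_left _ hK.le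
      refine (sum_le_sum hterm).trans ?_
      rw [← mul_sum]
      apply mul_le_mul_of_nonneg_left hsum (by positivity)
    have hE3 := Real.log_le_log hE hE2
    rw [Real.log_mul hK.ne' (by positivity), Real.log_mul (by positivity) hCv.ne',
      Real.log_mul (by positivity) (by positivity), Real.log_mul (by positivity) (by positivity),
      Real.log_exp, Real.log_pow, Real.log_pow, hQ,
      Real.log_prod (fun a _ => (kap_pos hn p _ _).ne')] at hE3
    push_cast at hE3
    linarith
  set e : ℝ := (Real.log E - Real.log (K1 n m N) - 2 - m * Real.log 4 - Real.log Cv) / 2 with he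
  have hb : (0 : ℝ) ≤ Real.log 2 := Real.log_nonneg (by norm_num)
  have key := elem (M := m + 1) (by omega) (x := fun l => u (J l))
    (D := fun l a => -Real.log (kap p (J l) (J a))) (b := Real.log 2) (e := e)
    (L := Real.log n) (C := C)
    (fun l a => by simp only [kap_symm p (J l) (J a)])
    (fun l a => by
      have := Real.log_le_log (kap_pos hn p _ _) (kap_le hn hp (J l) (J a))
      linarith)
    (fun l => by
      have : kap p (J l) (J l) = (n : ℝ)⁻¹ := by
        unfold kap
        rw [sub_self, norm_zero, max_eq_right (by positivity), one_div]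
      rw [this, Real.log_inv, neg_neg])
    hb
    (fun l => by
      have := hlog l
      rw [sum_neg_distrib]
      rw [he]
      linarith)
    (hgol J)
  have hm0 : (0 : ℝ) < m + 1 := by positivity
  push_cast at key
  have key2 : e ≤ 2 / (m + 1) * Real.log n + (C + m * Real.log 2) := by
    have h5 : (m + 1) * e ≤ (m + 1) * (2 / (m + 1) * Real.log n + (C + m * Real.log 2)) := by
      have : ((m : ℝ) + 1) * (2 / (m + 1) * Real.log n + (C + m * Real.log 2)) =
          2 * Real.log n + (C + m * Real.log 2) * (m + 1) := by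
        field_simp
      rw [this]
      linarith
    exact le_of_mul_le_mul_left h5 hm0
  have h6 : 4 / ((m : ℝ) + 1) * Real.log n = 2 * (2 / (m + 1) * Real.log n) := by ring
  rw [h6]
  rw [he] at key2
  linarith

end Pool.Agent.Helper82.UM
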