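import Mathlib
import Pool.Agent.Helper60.Rel.Omega
import Pool.Agent.Helper60.Rel.Relation
import Pool.Agent.Helper82.UM.Coeff2

/-!
# The relation attached to a tuple of grid points, mean square version
-/

set_option autoImplicit false

namespace Pool.Agent.Helper82.UM

open Complex MeasureTheory Set Metric Pool.Agent.Helper60.Rel
open scoped Real ENNReal

variable {f G lam : ℂ → ℂ}

/-- The weights. -/
noncomputable def vv (G : ℂ → ℂ) (n : ℕ) (i : ℕ) : ℝ := ∫ ζ in Box n i, ‖deriv G ζ‖ ^ 2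

theorem vv_nonneg (G : ℂ → ℂ) (n i : ℕ) : 0 ≤ vv G n i := by
  unfold vv
  exact setIntegral_nonneg (measurableSet_Box n i) (fun _ _ => by positivity)

theorem contW2 (h : LogData f G lam) : ContinuousOn (fun ζ => ‖deriv G ζ‖ ^ 2) LH :=
  h.contW.pow 2

/-- The relation attached to a tuple of grid points. -/
theorem relation2 (h : LogData f G lam) (m : ℕ) :
    ∃ C : ℕ → ℝ, (∀ L, 0 ≤ C L) ∧ ∀ n : ℕ, 1 ≤ n → ∀ J : Fin m → Fin n,
      ∃ c : ℕ → ℂ, c 0 = 1 ∧ (1 / 4 : ℝ) ^ m ≤ ‖c m‖ ∧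
        ∀ L : ℕ, 1 ≤ L →
          ∑ N ∈ Finset.Icc n (L * n),
            ‖∑ i ∈ Finset.range (m + 1), c i * tc f (N + i)‖ ^ 2 ≤
            C L / n * ∑ i : Fin n, (Real.exp (2 * uu G n i) * vv G n i)
              * ∏ a, kap (gp n) i (J a) ^ 2 := by
  obtain ⟨C₁, hC₁0, hC₁⟩ := coeff_bound2 h.fdiff m
  refine ⟨fun L => 2 * C₁ L * (10 ^ m * Real.exp 241) ^ 2, fun L => by
    have := hC₁0 L
    positivity, ?_⟩
  intro n hn J
  have h0 : (0 : ℝ) < n := by positivity
  have hn1 : (1 : ℝ) ≤ n := by exact_mod_cast hn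
  obtain ⟨c, hc0, hcm, hc⟩ := hC₁ n hn
    (fun l => exp (((-(1 / (n : ℝ)) : ℝ) : ℂ) + th n (J l) * I)) (by
      intro l
      rw [Complex.norm_exp]
      congr 1
      simp)
  refine ⟨c, hc0, hcm, ?_⟩
  intro L hL
  have hC0 := hC₁0 L
  set X := ∑ N ∈ Finset.Icc n (L * n),
            ‖∑ i ∈ Finset.range (m + 1), c i * tc f (N + i)‖ ^ 2 with hX
  set Ψ : ℂ → ℝ := fun ζ => (∏ l, max ‖exp ζ - exp (((-(1 / (n : ℝ)) : ℝ) : ℂ)
    + th n (J l) * I)‖ (1 / (n : ℝ))) * ‖deriv f (exp ζ)‖ with hΨ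
  set Φ : ℂ → ℝ := fun ζ => Ψ ζ ^ 2 with hΦ
  have hΨ0 : ∀ ζ, 0 ≤ Ψ ζ := by
    intro ζ
    rw [hΨ]
    apply mul_nonneg _ (norm_nonneg _)
    apply Finset.prod_nonneg
    intro l _
    exact le_trans (norm_nonneg _) (le_max_left _ _)
  have hΨc : ContinuousOn Ψ LH := by
    rw [hΨ]
    apply ContinuousOn.mul
    · apply continuousOn_finsetProd
      intro l _
      apply Continuous.continuousOn
      fun_prop
    · apply ContinuousOn.norm
      have h1 : ContinuousOn (deriv f) (ball 0 1) := (h.fdiff.deriv isOpen_ball).continuousOn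
      exact h1.comp Complex.continuous_exp.continuousOn (fun ζ hζ => exp_mem_ball hζ)
  have hΦc : ContinuousOn Φ LH := hΨc.pow 2
  have h1 : ∀ s : ℝ, 1 / (2 * (n : ℝ)) ≤ s → s ≤ 1 / (n : ℝ) →
      n * X ≤ C₁ L / n * ∫ τ in (0 : ℝ)..(2 * π), Φ (-(s : ℂ) + τ * I) := by
    intro s hs1 hs2
    have h2 := hc L hL s hs1 hs2
    have h3 : n * X ≤ n * (C₁ L / n ^ 2 * ∫ τ in (0 : ℝ)..(2 * π), Φ (-(s : ℂ) + τ * I)) := by
      apply mul_le_mul_of_nonneg_left _ h0.le
      exact h2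
    refine h3.trans (le_of_eq ?_)
    generalize (∫ τ in (0 : ℝ)..(2 * π), Φ (-(s : ℂ) + τ * I)) = Y
    field_simp
  have h2 := avg_bound hΦc hn h1
  have h3 := setIntegral_RC_sum hΦc hn n
  rw [th_self hn] at h3
  rw [h3] at h2
  have h4 : ∀ i : Fin n, ∫ ζ in Box n i, Φ ζ
      ≤ (10 ^ m * Real.exp 241) ^ 2 * ((Real.exp (2 * uu G n i) * vv G n i)
              * ∏ a, kap (gp n) i (J a) ^ 2) := by
    intro i
    set P := ∏ a, kap (gp n) i (J a) with hP
    have hP0 : 0 ≤ P := Finset.prod_nonneg (fun a _ => (kap_pos hn _ _ _).le)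
    have hPsq : ∏ a, kap (gp n) i (J a) ^ 2 = P ^ 2 := by
      rw [hP, Finset.prod_pow]
    have h5 : ∀ ζ ∈ Box n i, Φ ζ ≤ (10 ^ m * Real.exp 241 * Real.exp (uu G n i) * P) ^ 2
        * ‖deriv G ζ‖ ^ 2 := by
      intro ζ hζ
      have hζL : ζ ∈ LH := Box_subset_LH hn i hζ
      have h6 : (∏ l, max ‖exp ζ - exp (((-(1 / (n : ℝ)) : ℝ) : ℂ)
          + th n (J l) * I)‖ (1 / (n : ℝ))) ≤ 10 ^ m * P := by
        calc (∏ l, max ‖exp ζ - exp (((-(1 / (n : ℝ)) : ℝ) : ℂ)
          + th n (J l) * I)‖ (1 / (n : ℝ))) ≤ ∏ l, 10 * kap (gp n) i (J l) := by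
              apply Finset.prod_le_prod
              · intro l _
                exact le_trans (norm_nonneg _) (le_max_left _ _)
              · intro l _
                apply max_le
                · exact box_dist hn hζ
                · have := kap_ge (gp n) i (J l)
                  have := kap_pos hn (gp n) i (J l)
                  linarith
          _ = 10 ^ m * P := by
              rw [Finset.prod_mul_distrib, Finset.prod_const, Finset.card_univ,
                Fintype.card_fin]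
      have h7 : ‖deriv f (exp ζ)‖ ≤ Real.exp 241 * Real.exp (uu G n i) * ‖deriv G ζ‖ := by
        rw [h.deriv_f hζL]
        have h8 := h.box_re hn hζ
        rw [abs_le] at h8
        have h9 : -ζ.re ≤ 1 := by
          have := hζ.1
          have : 1 / (n : ℝ) ≤ 1 := by rw [div_le_one h0]; exact hn1
          linarith
        calc Real.exp (G ζ).re * ‖deriv G ζ‖ * Real.exp (-ζ.re)
            = Real.exp ((G ζ).re + -ζ.re) * ‖deriv G ζ‖ := by rw [Real.exp_add]; ring
          _ ≤ Real.exp (241 + uu G n i) * ‖deriv G ζ‖ := by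
              apply mul_le_mul_of_nonneg_right _ (norm_nonneg _)
              apply Real.exp_le_exp.2
              unfold uu
              linarith [h8.2]
          _ = _ := by rw [Real.exp_add]
      have h10 : Ψ ζ ≤ (10 ^ m * Real.exp 241 * Real.exp (uu G n i) * P) * ‖deriv G ζ‖ := by
        calc Ψ ζ ≤ (10 ^ m * P) * (Real.exp 241 * Real.exp (uu G n i) * ‖deriv G ζ‖) := by
              rw [hΨ]
              apply mul_le_mul h6 h7 (norm_nonneg _) (by positivity)
          _ = _ := by ring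
      rw [hΦ, ← mul_pow]
      exact pow_le_pow_left₀ (hΨ0 ζ) h10 2
    have hi1 : IntegrableOn Φ (Box n i) :=
      (rectC hΦc (box_le hn) (box_right_neg hn) (th_mono (Nat.le_succ (i : ℕ)))).1
    have hi2 : IntegrableOn (fun ζ => ‖deriv G ζ‖ ^ 2) (Box n i) :=
      (rectC (contW2 h) (box_le hn) (box_right_neg hn) (th_mono (Nat.le_succ (i : ℕ)))).1
    calc ∫ ζ in Box n i, Φ ζ
        ≤ ∫ ζ in Box n i, (10 ^ m * Real.exp 241 * Real.exp (uu G n i) * P) ^ 2
            * ‖deriv G ζ‖ ^ 2 :=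
          setIntegral_mono_on hi1 (hi2.const_mul _) (measurableSet_Box n i) h5
      _ = (10 ^ m * Real.exp 241 * Real.exp (uu G n i) * P) ^ 2
            * ∫ ζ in Box n i, ‖deriv G ζ‖ ^ 2 := by
          rw [integral_const_mul]
      _ = _ := by
          rw [hPsq]
          unfold vv
          have e1 : Real.exp (2 * uu G n i) = Real.exp (uu G n i) ^ 2 := by
            rw [← Real.exp_nat_mul]; norm_num
          rw [e1]
          ring
  have h5 : ∑ i ∈ Finset.range n, ∫ ζ in Box n i, Φ ζ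
      ≤ (10 ^ m * Real.exp 241) ^ 2 * ∑ i : Fin n, ((Real.exp (2 * uu G n i) * vv G n i)
              * ∏ a, kap (gp n) i (J a) ^ 2) := by
    rw [Finset.sum_range, Finset.mul_sum]
    exact Finset.sum_le_sum (fun i _ => h4 i)
  have h6 : n * X ≤ 2 * C₁ L * ((10 ^ m * Real.exp 241) ^ 2 * ∑ i : Fin n,
        ((Real.exp (2 * uu G n i) * vv G n i) * ∏ a, kap (gp n) i (J a) ^ 2)) := by
    refine h2.trans ?_
    gcongr
  show X ≤ 2 * C₁ L * (10 ^ m * Real.exp 241) ^ 2 / n * _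
  rw [div_mul_eq_mul_div, le_div_iff₀ h0]
  linarith

/-- Area bound for the weights on a level set. -/
theorem vv_bound (h : LogData f G lam) {n : ℕ} (hn : 1 ≤ n) (A : Finset (Fin n)) {k : ℝ}
    (hlev : ∀ i ∈ A, uu G n i ∈ Icc k (k + 1)) :
    ∑ i ∈ A, vv G n i ≤ 2 * π * 481 := by
  set R : Set ℂ := ⋃ i ∈ A, Box n i with hR
  have hRm : MeasurableSet R := A.measurableSet_biUnion (fun i _ => measurableSet_Box n i)
  have hRstrip : R ⊆ {ζ : ℂ | ζ.re < 0 ∧ 0 ≤ ζ.im ∧ ζ.im < 2 * π} := by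
    rw [hR]
    exact iUnion₂_subset (fun i _ => Box_subset_strip hn i.2)
  have hRlev : ∀ ζ ∈ R, (G ζ).re ∈ Icc (k - 240) (k + 241) := by
    intro ζ hζ
    rw [hR, mem_iUnion₂] at hζ
    obtain ⟨i, hi, hζi⟩ := hζ
    have h1 := abs_le.1 (h.box_re hn hζi)
    have h2 := hlev i hi
    unfold uu at h2
    constructor
    · linarith [h1.1, h2.1]
    · linarith [h1.2, h2.2]
  have hint : ∀ i ∈ A, IntegrableOn (fun ζ => ‖deriv G ζ‖ ^ 2) (Box n i) := by
    intro i _
    exact (rectC (contW2 h) (box_le hn) (box_right_neg hn) (th_mono (Nat.le_succ _))).1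
  have hRint : IntegrableOn (fun ζ => ‖deriv G ζ‖ ^ 2) R :=
    (integrableOn_finset_iUnion).2 hint
  have hsum : ∑ i ∈ A, vv G n i = ∫ ζ in R, ‖deriv G ζ‖ ^ 2 := by
    unfold vv
    rw [hR, integral_biUnion_finset A (fun i _ => measurableSet_Box n i) _ hint]
    intro i _ j _ hij
    exact Box_disjoint n (fun hc => hij (Fin.ext hc))
  have hsq := h.sq_bound hRm hRstrip hRlev
  rw [← ofReal_integral_eq_lintegral_ofReal hRint
    (Filter.Eventually.of_forall (fun ζ => by positivity)),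
    ENNReal.ofReal_le_ofReal_iff (by positivity)] at hsq
  rw [hsum]
  exact hsq

end Pool.Agent.Helper82.UM
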