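import Mathlib
import Pool.Agent.Helper82.UM.Relation2
import Pool.Agent.Helper82.UM.Core2

/-!
# The mean square theorem
-/

set_option autoImplicit false

namespace Pool.Agent.Helper82.UM

open Finset Pool.Agent.Helper60.Rel

theorem meanSquare {m : ℕ} (hm : 1 ≤ m) {f : ℂ → ℂ} (hf : ClassS f) :
    ∃ K : ℕ → ℝ, (∀ L, 0 ≤ K L) ∧ ∀ n : ℕ, 1 ≤ n → ∃ c : ℕ → ℂ, c 0 = 1 ∧
      (1 / 4 : ℝ) ^ m ≤ ‖c m‖ ∧ ∀ L : ℕ, 1 ≤ L →
        ∑ N ∈ Icc n (L * n), ‖∑ i ∈ range (m + 1), c i * tc f (N + i)‖ ^ 2 ≤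
          K L * (n : ℝ) ^ (-1 + 4 / ((m : ℝ) + 1)) * (1 + Real.log n) ^ ((m + 1) * (m + 2)) := by
  classical
  obtain ⟨G, lam, h⟩ := exists_logData hf
  obtain ⟨B, hB0, hB⟩ := h.lower
  obtain ⟨C, hC0, hC⟩ := goluzin h.bnd
  obtain ⟨Cr, hCr0, hCr⟩ := relation2 h m
  set c : ℝ := C + B + 4 with hc
  have hc0 : 0 < c := by rw [hc]; positivity
  set Cv : ℝ := 2 * Real.pi * 481 with hCvdef
  have hCv0 : 0 < Cv := by
    have := Real.pi_pos
    rw [hCvdef]; positivity
  set A : ℝ := Real.log (2 * (m + 1)) + (m + 1) * Real.log c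
      + (m + 1) * (m + 1) * Real.log 2 + (m + 1) * Real.log 10000
      + (2 + m * Real.log 4 + Real.log Cv + 2 * C + 2 * m * Real.log 2) with hA
  have key : ∀ n : ℕ, 1 ≤ n → ∀ E : ℝ, 0 < E →
      (∀ J : Fin m → Fin n, E ≤ ∑ i, (Real.exp (2 * uu G n i) * vv G n i)
        * ∏ a, kap (gp n) i (J a) ^ 2) →
      E ≤ Real.exp A * (n : ℝ) ^ (4 / ((m : ℝ) + 1)) * (1 + Real.log n) ^ ((m + 1) * (m + 2)) := by
    intro n hn E hE hS
    have h0 : (0 : ℝ) < n := by positivity
    have hn1 : (1 : ℝ) ≤ n := by exact_mod_cast hn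
    have hlog0 : 0 ≤ Real.log n := Real.log_nonneg hn1
    have hσ0 : (0 : ℝ) < 1 / n := by positivity
    have hσ1 : (1 : ℝ) / n ≤ 1 := by rw [div_le_one h0]; exact hn1
    have hT0 : 0 < 1 + Real.log n := by linarith
    have hup : ∀ i, uu G n i ≤ 2 * Real.log n + C := by
      intro i
      have h1 := hC Unit (1 / (n : ℝ)) hσ0 hσ1 (fun _ => th n i) (fun _ => 1)
        (fun _ => by norm_num)
      simp only [univ_unique, sum_singleton, one_mul, min_self, sub_self, norm_zero, mul_one,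
        one_pow] at h1
      rw [max_eq_right hσ0.le, one_div, Real.log_inv, neg_neg] at h1
      unfold uu
      rw [one_div]
      exact h1
    set N : ℕ := ⌈2 * Real.log n + C + B⌉₊ with hN
    have hu : ∀ i, 0 ≤ uu G n i + B := by
      intro i
      have := hB (-((1 / (n : ℝ) : ℝ) : ℂ) + th n i * Complex.I) (by
        show (-((1 / (n : ℝ) : ℝ) : ℂ) + th n i * Complex.I).re < 0
        have : (-((1 / (n : ℝ) : ℝ) : ℂ) + th n i * Complex.I).re = -(1 / (n : ℝ)) := by
          simp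
        rw [this]; linarith) (by
        have : (-((1 / (n : ℝ) : ℝ) : ℂ) + th n i * Complex.I).re = -(1 / (n : ℝ)) := by
          simp
        rw [this]; linarith)
      unfold uu
      linarith
    have hu2 : ∀ i, uu G n i + B ≤ N := by
      intro i
      have h1 := hup i
      have h2 := Nat.le_ceil (2 * Real.log n + C + B)
      rw [← hN] at h2
      linarith
    have hNb : (N : ℝ) + 1 ≤ c * (1 + Real.log n) := by
      have h2 := Nat.ceil_lt_add_one (a := 2 * Real.log n + C + B) (by positivity)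
      rw [← hN] at h2
      rw [hc]
      nlinarith [mul_nonneg hC0 hlog0, mul_nonneg hB0 hlog0]
    have hcore := core2 (m := m) hn hm (gp_norm n) (u := uu G n) (v := fun i => vv G n i)
      (fun i => vv_nonneg G n i) (B := B) (N := N) hu hu2 hE hS (Cv := Cv) hCv0
      (fun A k hlev => vv_bound h hn A hlev) (C := C)
      (by
        intro J
        have h1 := hC (Fin (m + 1)) (1 / (n : ℝ)) hσ0 hσ1 (fun l => th n (J l)) (fun _ => 1)
          (fun _ => by norm_num)
        simp only [one_mul, sum_const, card_univ, Fintype.card_fin, nsmul_eq_mul, mul_one] at h1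
        exact h1)
    have hK := log_K1 (m := m) hn hc0 hNb
    have hP : ((m : ℝ) + 1) + (m + 1) * (m + 1) = (((m + 1) * (m + 2) : ℕ) : ℝ) := by
      push_cast; ring
    rw [hP] at hK
    have hfin : Real.log E ≤ A + 4 / ((m : ℝ) + 1) * Real.log n
        + (((m + 1) * (m + 2) : ℕ) : ℝ) * Real.log (1 + Real.log n) := by
      rw [hA]
      linarith
    calc E = Real.exp (Real.log E) := (Real.exp_log hE).symm
      _ ≤ Real.exp (A + 4 / ((m : ℝ) + 1) * Real.log n
        + (((m + 1) * (m + 2) : ℕ) : ℝ) * Real.log (1 + Real.log n)) := Real.exp_le_exp.2 hfin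
      _ = _ := by
          rw [Real.exp_add, Real.exp_add, Real.rpow_def_of_pos h0, mul_comm (Real.log n),
            Real.exp_nat_mul, Real.exp_log hT0]
  refine ⟨fun L => Cr L * Real.exp A, fun L => mul_nonneg (hCr0 L) (Real.exp_pos _).le, ?_⟩
  intro n hn
  have h0 : (0 : ℝ) < n := by positivity
  have hn1 : (1 : ℝ) ≤ n := by exact_mod_cast hn
  have hlog0 : 0 ≤ Real.log n := Real.log_nonneg hn1
  have : Nonempty (Fin n) := ⟨⟨0, by omega⟩⟩
  obtain ⟨J, hJ⟩ := Finite.exists_min (fun J : Fin m → Fin n =>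
    ∑ i, (Real.exp (2 * uu G n i) * vv G n i) * ∏ a, kap (gp n) i (J a) ^ 2)
  obtain ⟨c', hc0', hcm, hcj⟩ := hCr n hn J
  refine ⟨c', hc0', hcm, ?_⟩
  intro L hL
  refine le_trans (hcj L hL) ?_
  set E := ∑ i, (Real.exp (2 * uu G n i) * vv G n i) * ∏ a, kap (gp n) i (J a) ^ 2 with hEd
  have hEb : E ≤ Real.exp A * (n : ℝ) ^ (4 / ((m : ℝ) + 1))
      * (1 + Real.log n) ^ ((m + 1) * (m + 2)) := by
    rcases le_or_gt E 0 with hle | hgt
    · exact le_trans hle (by positivity)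
    · exact key n hn E hgt hJ
  have hCrL := hCr0 L
  calc Cr L / n * E ≤ Cr L / n * (Real.exp A * (n : ℝ) ^ (4 / ((m : ℝ) + 1))
      * (1 + Real.log n) ^ ((m + 1) * (m + 2))) :=
        mul_le_mul_of_nonneg_left hEb (by positivity)
    _ = Cr L * Real.exp A * (n : ℝ) ^ (-1 + 4 / ((m : ℝ) + 1))
      * (1 + Real.log n) ^ ((m + 1) * (m + 2)) := by
        rw [Real.rpow_add h0, Real.rpow_neg_one]
        field_simp

end Pool.Agent.Helper82.UM
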