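import Mathlib
import Pool.Agent.Helper82.UM.Upper

/-!
# From the mean square to almost all `n`
-/

set_option autoImplicit false

namespace Pool.Agent.Helper82.UM

open Finset Pool.Agent.Helper60.Rel

/-- The relations hold at `n`, with window `n ^ θ`, exponent `α` and constant `1`. -/
def Good (f : ℂ → ℂ) (m : ℕ) (α θ : ℝ) (n : ℕ) : Prop :=
  ∃ c : ℕ → ℂ, c 0 = 1 ∧ (1 / 4 : ℝ) ^ m ≤ ‖c m‖ ∧ ∀ j : ℕ, (j : ℝ) ≤ (n : ℝ) ^ θ →
    ‖∑ i ∈ range (m + 1), c i * tc f (n + j + i)‖ ≤ (n : ℝ) ^ α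

theorem rpow_block {n0 n : ℕ} (h0 : 1 ≤ n0) (h1 : n0 ≤ n) (h2 : n < 2 * n0) (α : ℝ) :
    (2 : ℝ) ^ (-|α|) * (n0 : ℝ) ^ α ≤ (n : ℝ) ^ α := by
  have a0 : (0 : ℝ) < n0 := by exact_mod_cast h0
  have a1 : (n0 : ℝ) ≤ n := by exact_mod_cast h1
  have a2 : (n : ℝ) ≤ 2 * n0 := by exact_mod_cast h2.le
  have a3 : (0 : ℝ) < n := by linarith
  rcases le_or_gt 0 α with h | h
  · calc (2 : ℝ) ^ (-|α|) * (n0 : ℝ) ^ α ≤ 1 * (n0 : ℝ) ^ α := by
          apply mul_le_mul_of_nonneg_right _ (Real.rpow_nonneg a0.le _)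
          exact Real.rpow_le_one_of_one_le_of_nonpos (by norm_num) (by simp)
      _ = (n0 : ℝ) ^ α := one_mul _
      _ ≤ (n : ℝ) ^ α := Real.rpow_le_rpow a0.le a1 h
  · calc (2 : ℝ) ^ (-|α|) * (n0 : ℝ) ^ α = (2 * (n0 : ℝ)) ^ α := by
          rw [abs_of_neg h, neg_neg, Real.mul_rpow (by norm_num) a0.le]
      _ ≤ (n : ℝ) ^ α := Real.rpow_le_rpow_of_nonpos a3 a2 h.le

open Classical in
theorem block {m : ℕ} (hm : 1 ≤ m) {f : ℂ → ℂ} (hf : ClassS f) {α θ γ : ℝ} (hθ0 : 0 ≤ θ)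
    (hθ1 : θ ≤ 1) (hγ : 1 + θ - 2 * (α - (-1 + 2 / ((m : ℝ) + 1))) < γ) :
    ∃ C : ℝ, 0 ≤ C ∧ ∀ n0 : ℕ, 1 ≤ n0 →
      ((((Ico n0 (2 * n0)).filter fun n => ¬ Good f m α θ n).card : ℕ) : ℝ) ≤
        C * (n0 : ℝ) ^ γ := by
  obtain ⟨K, hK0, hK⟩ := meanSquare hm hf
  set P : ℕ := (m + 1) * (m + 2) with hP
  have hP0 : (0 : ℝ) < P := by rw [hP]; positivity
  set γ0 : ℝ := 1 + θ - 2 * (α - (-1 + 2 / ((m : ℝ) + 1))) with hγ0
  set ε : ℝ := (γ - γ0) / P with hε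
  have hε0 : 0 < ε := by rw [hε]; apply div_pos _ hP0; linarith
  have hεP : ε * P = γ - γ0 := by rw [hε]; field_simp
  refine ⟨3 * (K 4 * ((2 : ℝ) ^ (|α|)) ^ 2 * (1 + 1 / ε) ^ P), by
    have := hK0 4
    positivity, ?_⟩
  intro n0 hn0
  have a0 : (0 : ℝ) < n0 := by exact_mod_cast hn0
  have a1 : (1 : ℝ) ≤ n0 := by exact_mod_cast hn0
  have hlog0 : 0 ≤ Real.log n0 := Real.log_nonneg a1
  obtain ⟨c, hc0, hcm, hc⟩ := hK n0 hn0
  have hc4 := hc 4 (by norm_num)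
  set F : ℕ → ℝ := fun N => ‖∑ i ∈ range (m + 1), c i * tc f (N + i)‖ with hF
  set y : ℝ := (2 : ℝ) ^ (-|α|) * (n0 : ℝ) ^ α with hy
  have hy0 : 0 < y := by rw [hy]; positivity
  set Gs : Finset ℕ := (Icc n0 (4 * n0)).filter fun N => y < F N with hGs
  set W : ℕ := ⌊(2 * (n0 : ℝ)) ^ θ⌋₊ with hW
  -- the large values
  have hG : (Gs.card : ℝ) * y ^ 2 ≤
      K 4 * (n0 : ℝ) ^ (-1 + 4 / ((m : ℝ) + 1)) * (1 + Real.log n0) ^ P := by
    calc (Gs.card : ℝ) * y ^ 2 = ∑ _N ∈ Gs, y ^ 2 := by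
          rw [sum_const, nsmul_eq_mul]
      _ ≤ ∑ N ∈ Gs, F N ^ 2 := by
          apply sum_le_sum
          intro N hN
          exact pow_le_pow_left₀ hy0.le (mem_filter.1 hN).2.le 2
      _ ≤ ∑ N ∈ Icc n0 (4 * n0), F N ^ 2 := by
          apply sum_le_sum_of_subset_of_nonneg (filter_subset _ _)
          intro N _ _
          positivity
      _ ≤ _ := hc4
  -- the bad n
  have hsub : ((Ico n0 (2 * n0)).filter fun n => ¬ Good f m α θ n) ⊆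
      (Gs ×ˢ range (W + 1)).image fun q => q.1 - q.2 := by
    intro n hn
    rw [mem_filter, mem_Ico] at hn
    obtain ⟨⟨h1, h2⟩, h3⟩ := hn
    have h4 : ∃ j : ℕ, (j : ℝ) ≤ (n : ℝ) ^ θ ∧ (n : ℝ) ^ α < F (n + j) := by
      by_contra hcon
      push Not at hcon
      exact h3 ⟨c, hc0, hcm, fun j hj => hcon j hj⟩
    obtain ⟨j, hj1, hj2⟩ := h4
    have b1 : (n : ℝ) ≤ 2 * n0 := by exact_mod_cast h2.le
    have b2 : (1 : ℝ) ≤ n := by
      have : (n0 : ℝ) ≤ n := by exact_mod_cast h1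
      linarith
    have b3 : j ≤ W := by
      rw [hW]
      apply Nat.le_floor
      exact hj1.trans (Real.rpow_le_rpow (by linarith) b1 hθ0)
    have b4 : j ≤ n := by
      have : (n : ℝ) ^ θ ≤ n := by
        calc (n : ℝ) ^ θ ≤ (n : ℝ) ^ (1 : ℝ) := Real.rpow_le_rpow_of_exponent_le b2 hθ1
          _ = n := Real.rpow_one _
      exact_mod_cast hj1.trans this
    rw [mem_image]
    refine ⟨(n + j, j), ?_, by simp⟩
    rw [mem_product, hGs, mem_filter, mem_Icc, mem_range]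
    refine ⟨⟨⟨by simp only; omega, by simp only; omega⟩, ?_⟩, by simp only; omega⟩
    exact lt_of_le_of_lt (rpow_block hn0 h1 h2 α) hj2
  have hcard : ((((Ico n0 (2 * n0)).filter fun n => ¬ Good f m α θ n).card : ℕ) : ℝ) ≤
      Gs.card * (W + 1) := by
    have := (card_le_card hsub).trans card_image_le
    rw [card_product, card_range] at this
    exact_mod_cast this
  have hWb : (W : ℝ) + 1 ≤ 3 * (n0 : ℝ) ^ θ := by
    have b1 := Nat.floor_le (show (0 : ℝ) ≤ (2 * (n0 : ℝ)) ^ θ by positivity)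
    rw [← hW, Real.mul_rpow (by norm_num) a0.le] at b1
    have b2 : (2 : ℝ) ^ θ ≤ 2 := by
      calc (2 : ℝ) ^ θ ≤ (2 : ℝ) ^ (1 : ℝ) :=
            Real.rpow_le_rpow_of_exponent_le (by norm_num) hθ1
        _ = 2 := Real.rpow_one _
    have b3 : (1 : ℝ) ≤ (n0 : ℝ) ^ θ := Real.one_le_rpow a1 hθ0
    nlinarith
  -- the logarithms
  have hL : (1 + Real.log n0) ^ P ≤ (1 + 1 / ε) ^ P * (n0 : ℝ) ^ (γ - γ0) := by
    have b1 := Real.log_le_rpow_div a0.le hε0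
    have b2 : (1 : ℝ) ≤ (n0 : ℝ) ^ ε := Real.one_le_rpow a1 hε0.le
    have b3 : 1 + Real.log n0 ≤ (1 + 1 / ε) * (n0 : ℝ) ^ ε := by
      have : (1 + 1 / ε) * (n0 : ℝ) ^ ε = (n0 : ℝ) ^ ε + (n0 : ℝ) ^ ε / ε := by ring
      rw [this]
      linarith
    calc (1 + Real.log n0) ^ P ≤ ((1 + 1 / ε) * (n0 : ℝ) ^ ε) ^ P :=
          pow_le_pow_left₀ (by linarith) b3 P
      _ = _ := by
          rw [mul_pow, ← Real.rpow_natCast ((n0 : ℝ) ^ ε) P, ← Real.rpow_mul a0.le, hεP]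
  have hGc : (Gs.card : ℝ) ≤ K 4 * ((2 : ℝ) ^ (|α|)) ^ 2 * (1 + 1 / ε) ^ P *
      (n0 : ℝ) ^ (γ - θ) := by
    have hK4 := hK0 4
    have b1 : (Gs.card : ℝ) ≤ (K 4 * (n0 : ℝ) ^ (-1 + 4 / ((m : ℝ) + 1)) *
        (1 + Real.log n0) ^ P) / y ^ 2 := by
      rw [le_div_iff₀ (by positivity)]
      exact hG
    refine b1.trans ?_
    have e1 : y ^ 2 = ((2 : ℝ) ^ (|α|))⁻¹ ^ 2 * (n0 : ℝ) ^ (2 * α) := by
      rw [hy, mul_pow, Real.rpow_neg (by norm_num)]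
      congr 1
      rw [← Real.rpow_natCast ((n0 : ℝ) ^ α) 2, ← Real.rpow_mul a0.le]
      congr 1
      push_cast
      ring
    have e2 : (n0 : ℝ) ^ (γ - θ) = (n0 : ℝ) ^ (γ - γ0) * (n0 : ℝ) ^ (-1 + 4 / ((m : ℝ) + 1)) /
        (n0 : ℝ) ^ (2 * α) := by
      rw [← Real.rpow_add a0, ← Real.rpow_sub a0]
      congr 1
      rw [hγ0]
      ring
    rw [e1, e2, div_le_iff₀ (by positivity)]
    have e3 : K 4 * ((2 : ℝ) ^ (|α|)) ^ 2 * (1 + 1 / ε) ^ P *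
        ((n0 : ℝ) ^ (γ - γ0) * (n0 : ℝ) ^ (-1 + 4 / ((m : ℝ) + 1)) / (n0 : ℝ) ^ (2 * α)) *
        (((2 : ℝ) ^ (|α|))⁻¹ ^ 2 * (n0 : ℝ) ^ (2 * α)) =
        K 4 * (n0 : ℝ) ^ (-1 + 4 / ((m : ℝ) + 1)) *
          ((1 + 1 / ε) ^ P * (n0 : ℝ) ^ (γ - γ0)) := by
      have f1 : (n0 : ℝ) ^ (2 * α) ≠ 0 := by positivity
      have f2 : (2 : ℝ) ^ (|α|) ≠ 0 := by positivity
      generalize (n0 : ℝ) ^ (2 * α) = x1 at f1
      generalize (2 : ℝ) ^ (|α|) = x2 at f2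
      generalize (n0 : ℝ) ^ (γ - γ0) = x3
      generalize (n0 : ℝ) ^ (-1 + 4 / ((m : ℝ) + 1)) = x4
      field_simp
    rw [e3]
    gcongr
  calc ((((Ico n0 (2 * n0)).filter fun n => ¬ Good f m α θ n).card : ℕ) : ℝ)
      ≤ Gs.card * (W + 1) := hcard
    _ ≤ (K 4 * ((2 : ℝ) ^ (|α|)) ^ 2 * (1 + 1 / ε) ^ P * (n0 : ℝ) ^ (γ - θ)) *
        (3 * (n0 : ℝ) ^ θ) := by
        have := hK0 4
        gcongr
    _ = 3 * (K 4 * ((2 : ℝ) ^ (|α|)) ^ 2 * (1 + 1 / ε) ^ P) *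
        ((n0 : ℝ) ^ (γ - θ) * (n0 : ℝ) ^ θ) := by ring
    _ = 3 * (K 4 * ((2 : ℝ) ^ (|α|)) ^ 2 * (1 + 1 / ε) ^ P) * (n0 : ℝ) ^ γ := by
        rw [← Real.rpow_add a0]
        congr 2
        ring

open Classical in
theorem total {m : ℕ} (hm : 1 ≤ m) {f : ℂ → ℂ} (hf : ClassS f) {α θ γ : ℝ} (hθ0 : 0 ≤ θ)
    (hθ1 : θ ≤ 1) (hγ : 1 + θ - 2 * (α - (-1 + 2 / ((m : ℝ) + 1))) < γ) (hγ0 : 0 < γ) :
    ∃ C : ℝ, ∀ X : ℕ,
      ((((Icc 1 X).filter fun n => ¬ Good f m α θ n).card : ℕ) : ℝ) ≤ C * (X : ℝ) ^ γ := by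
  obtain ⟨C, hC0, hC⟩ := block hm hf hθ0 hθ1 hγ
  have hq : (2 : ℝ) ^ (-γ) < 1 := Real.rpow_lt_one_of_one_lt_of_neg (by norm_num) (by linarith)
  set q : ℝ := (2 : ℝ) ^ (-γ) with hqdef
  have hq0 : 0 < q := by rw [hqdef]; positivity
  have h1q : 0 < 1 - q := by linarith
  refine ⟨C / (1 - q), ?_⟩
  intro X
  induction X using Nat.strong_induction_on with
  | _ X ih =>
    rcases Nat.eq_zero_or_pos X with h | h
    · subst h
      simp [Real.zero_rpow hγ0.ne']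
    · have hX0 : (0 : ℝ) < X := by exact_mod_cast h
      have ih1 := ih (X / 2) (by omega)
      have hb := hC (X / 2 + 1) (by omega)
      have hsub : ((Icc 1 X).filter fun n => ¬ Good f m α θ n) ⊆
          ((Icc 1 (X / 2)).filter fun n => ¬ Good f m α θ n) ∪
          ((Ico (X / 2 + 1) (2 * (X / 2 + 1))).filter fun n => ¬ Good f m α θ n) := by
        intro n hn
        rw [mem_filter, mem_Icc] at hn
        rw [mem_union, mem_filter, mem_filter, mem_Icc, mem_Ico]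
        rcases le_or_gt n (X / 2) with h1 | h1
        · exact Or.inl ⟨⟨hn.1.1, h1⟩, hn.2⟩
        · refine Or.inr ⟨⟨by omega, by omega⟩, hn.2⟩
      have hcard : ((((Icc 1 X).filter fun n => ¬ Good f m α θ n).card : ℕ) : ℝ) ≤
          ((((Icc 1 (X / 2)).filter fun n => ¬ Good f m α θ n).card : ℕ) : ℝ) +
          ((((Ico (X / 2 + 1) (2 * (X / 2 + 1))).filter fun n => ¬ Good f m α θ n).card : ℕ) :
            ℝ) := by
        exact_mod_cast (card_le_card hsub).trans (card_union_le _ _)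
      have e1 : (((X / 2 : ℕ) : ℝ)) ^ γ ≤ q * (X : ℝ) ^ γ := by
        have b1 : ((X / 2 : ℕ) : ℝ) ≤ 2⁻¹ * X := by
          have := Nat.cast_div_le (m := X) (n := 2) (α := ℝ)
          push_cast at this
          linarith
        calc (((X / 2 : ℕ) : ℝ)) ^ γ ≤ (2⁻¹ * (X : ℝ)) ^ γ :=
              Real.rpow_le_rpow (Nat.cast_nonneg _) b1 hγ0.le
          _ = q * (X : ℝ) ^ γ := by
              rw [Real.mul_rpow (by norm_num) hX0.le, hqdef, Real.rpow_neg (by norm_num),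
                Real.inv_rpow (by norm_num)]
      have e2 : (((X / 2 + 1 : ℕ) : ℝ)) ^ γ ≤ (X : ℝ) ^ γ := by
        apply Real.rpow_le_rpow (Nat.cast_nonneg _) _ hγ0.le
        exact_mod_cast (by omega : X / 2 + 1 ≤ X)
      calc _ ≤ _ := hcard
        _ ≤ C / (1 - q) * (((X / 2 : ℕ) : ℝ)) ^ γ + C * (((X / 2 + 1 : ℕ) : ℝ)) ^ γ :=
            add_le_add ih1 hb
        _ ≤ C / (1 - q) * (q * (X : ℝ) ^ γ) + C * (X : ℝ) ^ γ := by gcongr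
        _ = C / (1 - q) * (X : ℝ) ^ γ := by
            field_simp
            ring

end Pool.Agent.Helper82.UM
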