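import Mathlib
import Pool.Agent.Helper60.Rel.Defs

/-!
# The function `z (1 - z ^ p) ^ (-2 / p)`
-/

set_option autoImplicit false

namespace Pool.Agent.Helper82.UM

open Complex Metric Finset Pool.Agent.Helper60.Rel

/-- The coefficients of `(1 - w) ^ (-s)`. -/
noncomputable def bb (s : ℝ) (k : ℕ) : ℝ := ∏ j ∈ range k, (1 - (1 - s) / ((j : ℝ) + 1))

theorem choose_bb (s : ℝ) (n : ℕ) : Ring.choose ((s : ℂ) + n - 1) n = (bb s n : ℂ) := by
  rw [← Ring.multichoose_eq]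
  induction n with
  | zero => simp [bb]
  | succ n ih =>
    have h1 := Ring.factorial_nsmul_multichoose_eq_ascPochhammer (s : ℂ) n
    have h2 := Ring.factorial_nsmul_multichoose_eq_ascPochhammer (s : ℂ) (n + 1)
    rw [Polynomial.ascPochhammer_smeval_eq_eval] at h1 h2
    rw [ascPochhammer_succ_eval, ← h1, ih] at h2
    simp only [nsmul_eq_mul] at h2
    rw [Nat.factorial_succ] at h2
    have hf : ((n.factorial : ℕ) : ℂ) ≠ 0 := by exact_mod_cast n.factorial_ne_zero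
    have hn : ((n : ℂ) + 1) ≠ 0 := by exact_mod_cast Nat.succ_ne_zero n
    have h3 : ((n : ℂ) + 1) * Ring.multichoose (s : ℂ) (n + 1) = (bb s n : ℂ) * (s + n) := by
      apply mul_left_cancel₀ hf
      push_cast at h2
      linear_combination h2
    unfold bb at h3 ⊢
    rw [prod_range_succ]
    push_cast at h3 ⊢
    have h4 : Ring.multichoose (s : ℂ) (n + 1) = (((n : ℂ) + 1))⁻¹ *
        (((n : ℂ) + 1) * Ring.multichoose (s : ℂ) (n + 1)) := by
      rw [inv_mul_cancel_left₀ hn]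
    rw [h4, h3]
    field_simp
    ring

theorem hasSum_bb (s : ℝ) {w : ℂ} (hw : ‖w‖ < 1) :
    HasSum (fun k => (bb s k : ℂ) * w ^ k) (1 / (1 - w) ^ (s : ℂ)) := by
  have h := (one_div_one_sub_cpow_hasFPowerSeriesOnBall_zero (s : ℂ)).hasSum (y := w) (by
    rw [← ENNReal.ofReal_one, Metric.eball_ofReal]
    simpa using hw)
  rw [zero_add] at h
  refine h.congr_fun ?_ |> fun h => h
  intro k
  rw [FormalMultilinearSeries.ofScalars_apply_eq, choose_bb]
  rfl

theorem bb_lower {s : ℝ} (h0 : 0 < s) (h1 : s ≤ 1) (k : ℕ) :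
    s * ((k : ℝ) + 1) ^ (s - 1) ≤ bb s (k + 1) := by
  induction k with
  | zero => simp [bb]
  | succ k ih =>
    unfold bb at ih ⊢
    rw [prod_range_succ]
    have hk : (0 : ℝ) < k + 1 := by positivity
    have hk2 : (0 : ℝ) < k + 1 + 1 := by positivity
    have hB := rpow_one_add_le_one_add_mul_self (s := -(1 / ((k : ℝ) + 1 + 1)))
      (by
        have : 1 / ((k : ℝ) + 1 + 1) ≤ 1 := by rw [div_le_one hk2]; linarith
        linarith) (p := 1 - s) (by linarith) (by linarith)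
    have e1 : (1 : ℝ) + -(1 / ((k : ℝ) + 1 + 1)) = (k + 1) / (k + 1 + 1) := by
      field_simp
      ring
    rw [e1, Real.div_rpow hk.le hk2.le] at hB
    have e2 : s * ((k : ℝ) + 1 + 1) ^ (s - 1) =
        s * ((k : ℝ) + 1) ^ (s - 1) *
          (((k : ℝ) + 1) ^ (1 - s) / ((k : ℝ) + 1 + 1) ^ (1 - s)) := by
      have a1 : ((k : ℝ) + 1) ^ (s - 1) = (((k : ℝ) + 1) ^ (1 - s))⁻¹ := by
        rw [← Real.rpow_neg hk.le]; congr 1; ring
      have a2 : ((k : ℝ) + 1 + 1) ^ (s - 1) = (((k : ℝ) + 1 + 1) ^ (1 - s))⁻¹ := by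
        rw [← Real.rpow_neg hk2.le]; congr 1; ring
      have a3 : (0 : ℝ) < ((k : ℝ) + 1) ^ (1 - s) := Real.rpow_pos_of_pos hk _
      have a4 : (0 : ℝ) < ((k : ℝ) + 1 + 1) ^ (1 - s) := Real.rpow_pos_of_pos hk2 _
      rw [a1, a2]
      field_simp
    push_cast
    rw [e2]
    apply mul_le_mul ih _ (by positivity)
    · refine prod_nonneg fun j _ => ?_
      have hj : (0 : ℝ) < (j : ℝ) + 1 := by positivity
      have : (1 - s) / ((j : ℝ) + 1) ≤ 1 := by
        rw [div_le_one hj]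
        have : (0 : ℝ) ≤ (j : ℝ) := Nat.cast_nonneg j
        linarith
      linarith
    · refine hB.trans (le_of_eq ?_)
      ring

/-- The extremal function. -/
noncomputable def fS (p : ℕ) (z : ℂ) : ℂ := z * (1 / (1 - z ^ p) ^ (((2 / p : ℝ)) : ℂ))

theorem pow_lt {p : ℕ} (hp : 1 ≤ p) {z : ℂ} (hz : z ∈ ball (0 : ℂ) 1) : ‖z ^ p‖ < 1 := by
  rw [mem_ball_zero_iff] at hz
  rw [norm_pow]
  exact pow_lt_one₀ (norm_nonneg _) hz (by omega)

theorem slit {p : ℕ} (hp : 1 ≤ p) {z : ℂ} (hz : z ∈ ball (0 : ℂ) 1) :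
    1 - z ^ p ∈ slitPlane := by
  have h := Complex.mem_slitPlane_of_norm_lt_one (z := -z ^ p) (by
    rw [norm_neg]; exact pow_lt hp hz)
  rwa [← sub_eq_add_neg] at h

theorem ne0 {p : ℕ} (hp : 1 ≤ p) {z : ℂ} (hz : z ∈ ball (0 : ℂ) 1) : 1 - z ^ p ≠ 0 :=
  slitPlane_ne_zero (slit hp hz)

theorem fS_diffAt {p : ℕ} (hp : 1 ≤ p) {z : ℂ} (hz : z ∈ ball (0 : ℂ) 1) :
    DifferentiableAt ℂ (fun z : ℂ => 1 / (1 - z ^ p) ^ (((2 / p : ℝ)) : ℂ)) z := by
  have h1 : DifferentiableAt ℂ (fun z : ℂ => 1 - z ^ p) z := by fun_prop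
  have h2 : DifferentiableAt ℂ (fun z : ℂ => (1 - z ^ p) ^ (((2 / p : ℝ)) : ℂ)) z :=
    h1.cpow_const (slit hp hz)
  exact (differentiableAt_const _).div h2 (by
    rw [Complex.cpow_ne_zero_iff]
    left
    exact ne0 hp hz)

theorem fS_diff {p : ℕ} (hp : 1 ≤ p) : DifferentiableOn ℂ (fS p) (ball 0 1) := fun z hz =>
  (differentiableAt_id.mul (fS_diffAt hp hz)).differentiableWithinAt

theorem fS_deriv {p : ℕ} (hp : 1 ≤ p) : deriv (fS p) 0 = 1 := by
  have h1 := (hasDerivAt_id (0 : ℂ)).mul (fS_diffAt hp (mem_ball_self one_pos)).hasDerivAt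
  have h2 : deriv (fS p) 0 = _ := h1.deriv
  rw [h2]
  simp only [id, zero_mul, add_zero, one_mul]
  rw [zero_pow (by omega), sub_zero, one_cpow, div_one]

theorem fS_pow {p : ℕ} (hp : 1 ≤ p) {z : ℂ} (hz : z ∈ ball (0 : ℂ) 1) :
    fS p z ^ p = z ^ p / (1 - z ^ p) ^ 2 := by
  unfold fS
  rw [mul_pow, div_pow, one_pow, ← Complex.cpow_nat_mul]
  have e1 : ((p : ℕ) : ℂ) * (((2 / p : ℝ)) : ℂ) = ((2 : ℕ) : ℂ) := by
    have : (p : ℂ) ≠ 0 := by exact_mod_cast (by omega : p ≠ 0)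
    push_cast
    field_simp
  rw [e1, Complex.cpow_natCast]
  ring

theorem fS_inj {p : ℕ} (hp : 1 ≤ p) : Set.InjOn (fS p) (ball 0 1) := by
  intro z hz w hw he
  have h1 : z ^ p / (1 - z ^ p) ^ 2 = w ^ p / (1 - w ^ p) ^ 2 := by
    rw [← fS_pow hp hz, ← fS_pow hp hw, he]
  have h2 : z ^ p = w ^ p := by
    have a1 := ne0 hp hz
    have a2 := ne0 hp hw
    rw [div_eq_div_iff (pow_ne_zero _ a1) (pow_ne_zero _ a2)] at h1
    have h3 : (z ^ p - w ^ p) * (1 - z ^ p * w ^ p) = 0 := by linear_combination h1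
    rcases mul_eq_zero.1 h3 with h | h
    · exact sub_eq_zero.1 h
    · exfalso
      have h4 : ‖z ^ p * w ^ p‖ < 1 := by
        rw [norm_mul]
        exact mul_lt_one_of_nonneg_of_lt_one_left (norm_nonneg _) (pow_lt hp hz)
          (pow_lt hp hw).le
      rw [sub_eq_zero] at h
      rw [← h, norm_one] at h4
      exact lt_irrefl _ h4
  unfold fS at he
  rw [h2] at he
  refine mul_right_cancel₀ ?_ he
  apply div_ne_zero one_ne_zero
  rw [Complex.cpow_ne_zero_iff]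
  left
  exact ne0 hp hw

theorem fS_classS {p : ℕ} (hp : 1 ≤ p) : ClassS (fS p) :=
  ⟨fS_diff hp, fS_inj hp, by simp [fS], fS_deriv hp⟩

theorem g_inj {p : ℕ} (hp : 1 ≤ p) : Function.Injective fun k : ℕ => p * k + 1 := by
  intro a b h
  have h1 : p * a = p * b := by
    simp only at h
    omega
  exact Nat.eq_of_mul_eq_mul_left (by omega) h1

/-- The Taylor coefficients. -/
noncomputable def AA (p : ℕ) : ℕ → ℂ :=
  Function.extend (fun k : ℕ => p * k + 1) (fun k => (bb (2 / p) k : ℂ)) 0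

theorem fS_hasSum {p : ℕ} (hp : 1 ≤ p) {z : ℂ} (hz : z ∈ ball (0 : ℂ) 1) :
    HasSum (fun n => z ^ n * AA p n) (fS p z) := by
  rw [← (g_inj hp).hasSum_iff]
  · have h := (hasSum_bb (2 / p) (pow_lt hp hz)).mul_left z
    refine h.congr_fun ?_ |> fun h => h
    intro k
    simp only [Function.comp]
    unfold AA
    rw [(g_inj hp).extend_apply]
    ring
  · intro x hx
    unfold AA
    rw [Function.extend_apply' _ _ _ (by simpa using hx)]
    simp

theorem fS_tc {p : ℕ} (hp : 1 ≤ p) (n : ℕ) : tc (fS p) n = AA p n := by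
  have h1 : HasFPowerSeriesAt (fS p) (FormalMultilinearSeries.ofScalars ℂ (AA p)) 0 := by
    rw [hasFPowerSeriesAt_iff]
    filter_upwards [ball_mem_nhds (0 : ℂ) one_pos] with z hz
    rw [zero_add]
    refine (fS_hasSum hp hz).congr_fun ?_ |> fun h => h
    intro k
    rw [FormalMultilinearSeries.coeff_ofScalars, smul_eq_mul]
  have han : AnalyticAt ℂ (fS p) 0 :=
    (fS_diff hp).analyticAt (isOpen_ball.mem_nhds (mem_ball_self one_pos))
  have h2 := han.hasFPowerSeriesAt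
  have h3 := h2.eq_formalMultilinearSeries h1
  have h4 := congrArg (fun q => q.coeff n) h3
  simp only [FormalMultilinearSeries.coeff_ofScalars] at h4
  exact h4

theorem AA_val {p : ℕ} (hp : 1 ≤ p) (k : ℕ) : AA p (p * k + 1) = (bb (2 / p) k : ℂ) :=
  (g_inj hp).extend_apply _ _ k

theorem AA_zero {p : ℕ} (k i : ℕ) (hi : 1 ≤ i) (hip : i < p) :
    AA p (p * k + 1 + i) = 0 := by
  unfold AA
  rw [Function.extend_apply']
  · rfl
  · rintro ⟨k', hk'⟩
    have h1 : p * k' = p * k + i := by omega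
    have h2 : (p * k' ) % p = (p * k + i) % p := by rw [h1]
    rw [Nat.mul_mod_right, Nat.mul_add_mod, Nat.mod_eq_of_lt hip] at h2
    omega

/-- The lower bound. -/
theorem sharp {m : ℕ} (hm : 1 ≤ m) {n : ℕ} (hn : 1 ≤ n) (c : ℕ → ℂ) (hc : c 0 = 1) :
    ∃ j : ℕ, j ≤ m ∧ 2 / ((m : ℝ) + 1) * (2 : ℝ) ^ (2 / ((m : ℝ) + 1) - 1)
      * (n : ℝ) ^ (-1 + 2 / ((m : ℝ) + 1)) ≤
        ‖∑ i ∈ range (m + 1), c i * tc (fS (m + 1)) (n + j + i)‖ := by
  have hp : 1 ≤ m + 1 := by omega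
  set k : ℕ := (n - 1 + m) / (m + 1) with hk
  have hk1 : n - 1 ≤ (m + 1) * k := by
    have := Nat.lt_mul_div_succ (n - 1 + m) (show 0 < m + 1 by omega)
    rw [← hk] at this
    have e : (m + 1) * (k + 1) = (m + 1) * k + (m + 1) := by ring
    omega
  have hk2 : (m + 1) * k ≤ n - 1 + m := by
    rw [hk]; exact Nat.mul_div_le _ _
  have hk3 : k ≤ n := by
    by_contra hcon
    push Not at hcon
    have h1 : (m + 1) * (n + 1) ≤ (m + 1) * k := Nat.mul_le_mul_left _ hcon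
    have h2 : (m + 1) * (n + 1) = m * n + m + n + 1 := by ring
    omega
  refine ⟨(m + 1) * k + 1 - n, by omega, ?_⟩
  have hN : n + ((m + 1) * k + 1 - n) = (m + 1) * k + 1 := by omega
  rw [hN, sum_range_succ']
  have h0 : ∑ i ∈ range m, c (i + 1) * tc (fS (m + 1)) ((m + 1) * k + 1 + (i + 1)) = 0 := by
    apply sum_eq_zero
    intro i hi
    rw [fS_tc hp, AA_zero k (i + 1) (by omega) (by have := mem_range.1 hi; omega), mul_zero]
  rw [h0, zero_add, hc, one_mul, add_zero, fS_tc hp, AA_val hp, Complex.norm_real]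
  refine le_trans ?_ (le_abs_self _)
  set s : ℝ := 2 / ((m : ℝ) + 1) with hs
  have hm1 : (1 : ℝ) ≤ m := by exact_mod_cast hm
  have hs0 : 0 < s := by rw [hs]; positivity
  have hs1 : s ≤ 1 := by
    rw [hs, div_le_one (by positivity)]; linarith
  have e1 : (2 / ((m + 1 : ℕ) : ℝ)) = s := by rw [hs]; push_cast; rfl
  rw [e1]
  have hn0 : (0 : ℝ) < n := by exact_mod_cast hn
  have hn1 : (1 : ℝ) ≤ n := by exact_mod_cast hn
  have e2 : s * (2 : ℝ) ^ (s - 1) * (n : ℝ) ^ (-1 + s) = s * (2 * (n : ℝ)) ^ (s - 1) := by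
    rw [Real.mul_rpow (by norm_num) hn0.le, mul_assoc]
    congr 3
    ring
  rw [e2]
  rcases Nat.eq_zero_or_pos k with h | h
  · rw [h]
    have : (2 * (n : ℝ)) ^ (s - 1) ≤ 1 :=
      Real.rpow_le_one_of_one_le_of_nonpos (by linarith) (by linarith)
    simp only [bb, range_zero, prod_empty]
    nlinarith [Real.rpow_pos_of_pos (show (0 : ℝ) < 2 * n by positivity) (s - 1)]
  · obtain ⟨k', hk'⟩ : ∃ k', k = k' + 1 := ⟨k - 1, by omega⟩
    rw [hk'] at hk3 ⊢
    refine le_trans ?_ (bb_lower hs0 hs1 k')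
    apply mul_le_mul_of_nonneg_left _ hs0.le
    apply Real.rpow_le_rpow_of_nonpos (by positivity) _ (by linarith)
    have : ((k' + 1 : ℕ) : ℝ) ≤ n := by exact_mod_cast hk3
    push_cast at this
    linarith

end Pool.Agent.Helper82.UM
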